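import Pool.Agent.Lib_MP_af4de1_in.Main
import Pool.Agent.Lib_MP_af4de1_fu.MainH
import Pool.Agent.Lib_MP_af4de1_fu.MFin
import Pool.Agent.Lib_MP_af4de1_fu.F3
import Pool.Agent.Lib_MP_af4de1_ti.TipFinal
import Pool.Agent.Lib_MP_af4de1_ti.W4
import Pool.Agent.Lib_MP_af4de1_v3.F1All

/-!
# The frozen statement S05821 from F1
-/

set_option autoImplicit false

namespace SokalEnd

open SokalFU

theorem dist_mid' : ∀ α r : ℝ, 0 < α → α ≤ 9 / 80 → 1 ≤ α * r → α * r ≤ 9 / 2 → Dist α r :=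
  fun _ _ h1 h2 h3 h4 => dist_mid h1 h2 h3 h4

theorem dist_big
    (F1 : ∀ α r : ℝ, 0 < α → α ≤ Real.pi → 50 ≤ r → 9 / 2 ≤ α * r → Dist α r) :
    ∀ α r : ℝ, 2 / 25 ≤ α → α ≤ Real.pi → 50 ≤ r → Dist α r := by
  intro α r h1 h2 h3
  have h0 : 0 < α := by linarith
  have h6 : 2 / 25 * 50 ≤ α * r := mul_le_mul h1 h3 (by norm_num) h0.le
  rcases le_total (9 / 2) (α * r) with h4 | h4
  · exact F1 α r h0 h2 h3 h4
  · have h5 : α * 50 ≤ α * r := mul_le_mul_of_nonneg_left h3 h0.le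
    exact dist_mid' α r h0 (by linarith) (by linarith) h4

/-- **The frozen statement** from F1. -/
theorem frozen_of
    (F1 : ∀ α r : ℝ, 0 < α → α ≤ Real.pi → 50 ≤ r → 9 / 2 ≤ α * r → Dist α r) :
    ∀ q : ℂ, 0 < ‖q‖ → ‖q‖ ≤ 1 → ∀ z : ℂ,
      (∑' k : ℕ, q ^ (k * (k - 1) / 2) * z ^ k / (Nat.factorial k : ℂ)) = 0 →
      deriv (fun w : ℂ => ∑' k : ℕ, q ^ (k * (k - 1) / 2) * w ^ k / (Nat.factorial k : ℂ)) z ≠ 0 :=
  SokalIn.frozen_of_fu (fun α a b r c => SokalFU.dist_all F1 dist_mid' dist_F3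
    (SokalTI.dist_tip (SokalTI.w4_F3 (dist_big F1))) α r a b c)

/-- **The frozen statement.** -/
theorem full :
    ∀ q : ℂ, 0 < ‖q‖ → ‖q‖ ≤ 1 → ∀ z : ℂ,
      (∑' k : ℕ, q ^ (k * (k - 1) / 2) * z ^ k / (Nat.factorial k : ℂ)) = 0 →
      deriv (fun w : ℂ => ∑' k : ℕ, q ^ (k * (k - 1) / 2) * w ^ k / (Nat.factorial k : ℂ)) z ≠ 0 :=
  frozen_of SokalV3.dist_F1

end SokalEnd
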